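import Mathlib

/-!
# MP_b50e26_gt : spaces admitting positive refinement expansive homeomorphisms

We prove that every `T₁` space which admits a positive refinement expansive homeomorphism is
finite.
-/

namespace Pool.Agent.Results.MP_b50e26_gt.FiniteSpace

open Set

/-- A family `𝒱` of sets is an open cover of `X`. -/
def IsOpenCover {X : Type*} [TopologicalSpace X] (𝒱 : Set (Set X)) : Prop :=
  (∀ V ∈ 𝒱, IsOpen V) ∧ ⋃₀ 𝒱 = univ

/-- The homeomorphism `f` is positive refinement expansive: there is a finite open cover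
`U 0, …, U (n-1)` of `X` such that for every open cover `𝒱` and every sequence
`k : ℕ → {0, …, n-1}` there is an `N` for which the intersection of the sets
`f^{-j}(U (k j))`, `0 ≤ j ≤ N`, is contained in a member of `𝒱`. -/
def PositiveRefinementExpansive {X : Type*} [TopologicalSpace X] (f : X ≃ₜ X) : Prop :=
  ∃ (n : ℕ) (U : Fin n → Set X), (∀ i, IsOpen (U i)) ∧ (⋃ i, U i) = univ ∧
    ∀ 𝒱 : Set (Set X), IsOpenCover 𝒱 → ∀ k : ℕ → Fin n, ∃ N : ℕ, ∃ V ∈ 𝒱,
      (⋂ j ∈ {j : ℕ | j ≤ N}, f^[j] ⁻¹' (U (k j))) ⊆ V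

theorem result (X : Type*) [TopologicalSpace X] [T1Space X] (f : X ≃ₜ X)
    (hf : PositiveRefinementExpansive f) : Finite X := by
  obtain ⟨n, U, hUo, hUc, hU⟩ := hf
  set P : ℕ → (ℕ → Fin n) → Set X := fun N k => {x | ∀ j ≤ N, f^[j] x ∈ U (k j)} with hP
  have hPmono : ∀ {M N : ℕ} (k : ℕ → Fin n), M ≤ N → P N k ⊆ P M k := by
    intro M N k h x hx j hj
    exact hx j (hj.trans h)
  -- uniform `N`
  have key : ∀ 𝒱 : Set (Set X), IsOpenCover 𝒱 → ∃ N, ∀ k, ∃ V ∈ 𝒱, P N k ⊆ V := by
    intro 𝒱 h𝒱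
    let O : ℕ → Set (ℕ → Fin n) := fun N => {k | ∃ V ∈ 𝒱, P N k ⊆ V}
    have hO : ∀ N, IsOpen (O N) := by
      intro N
      let S : Set (Fin (N + 1) → Fin n) :=
        {w | ∃ V ∈ 𝒱, {x | ∀ j : Fin (N + 1), f^[(j : ℕ)] x ∈ U (w j)} ⊆ V}
      have hS : O N = (fun k : ℕ → Fin n => fun j : Fin (N + 1) => k j) ⁻¹' S := by
        ext k
        have : {x | ∀ j : Fin (N + 1), f^[(j : ℕ)] x ∈ U (k j)} = P N k := by
          ext x
          simp only [hP, mem_ofPred_eq]
          constructor
          · intro h j hj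
            exact h ⟨j, Nat.lt_succ_of_le hj⟩
          · intro h j
            exact h j (Nat.le_of_lt_succ j.2)
        simp only [O, S, mem_ofPred_eq, mem_preimage, this]
      have hcont : Continuous (fun k : ℕ → Fin n => fun j : Fin (N + 1) => k j) :=
        continuous_pi fun j => continuous_apply (j : ℕ)
      rw [hS]
      exact (isOpen_discrete S).preimage hcont
    have hcov : (univ : Set (ℕ → Fin n)) ⊆ ⋃ N, O N := by
      intro k _
      obtain ⟨N, V, hV, h⟩ := hU 𝒱 h𝒱 k
      refine mem_iUnion.2 ⟨N, V, hV, ?_⟩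
      refine Subset.trans ?_ h
      intro x hx
      simp only [mem_iInter, mem_ofPred_eq, mem_preimage]
      intro j hj
      exact hx j hj
    have hdir : Directed (· ⊆ ·) O := by
      apply Monotone.directed_le
      intro M N h k hk
      obtain ⟨V, hV, hk⟩ := hk
      exact ⟨V, hV, (hPmono k h).trans hk⟩
    obtain ⟨N, hN⟩ := isCompact_univ.elim_directed_cover O hO hcov hdir
    exact ⟨N, fun k => hN (mem_univ k)⟩
  -- apply to the cover `f (U i)`
  obtain ⟨N, hN⟩ := key (range fun i => f.symm ⁻¹' (U i)) (by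
    refine ⟨?_, ?_⟩
    · rintro _ ⟨i, rfl⟩
      exact (hUo i).preimage f.symm.continuous
    · rw [sUnion_range, ← preimage_iUnion, hUc, preimage_univ])
  have hN' : ∀ k : ℕ → Fin n, ∃ i, f ⁻¹' (P N k) ⊆ U i := by
    intro k
    obtain ⟨_, ⟨i, rfl⟩, hi⟩ := hN k
    refine ⟨i, fun x hx => ?_⟩
    have := hi hx
    simpa using this
  have step : ∀ m : ℕ, ∀ k : ℕ → Fin n, ∃ k' : ℕ → Fin n, f^[m] ⁻¹' (P N k) ⊆ P (N + m) k' := by
    intro m
    induction m with
    | zero => intro k; exact ⟨k, by simp⟩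
    | succ m ih =>
      intro k
      obtain ⟨k', hk'⟩ := ih k
      obtain ⟨i, hi⟩ := hN' k'
      refine ⟨fun j => Nat.casesOn j i k', ?_⟩
      intro x hx
      have hx1 : f x ∈ f^[m] ⁻¹' (P N k) := by
        simpa [Function.iterate_succ_apply] using hx
      have hx2 : f x ∈ P (N + m) k' := hk' hx1
      have hx3 : x ∈ U i := hi (hPmono k' (Nat.le_add_right N m) hx2)
      intro j hj
      cases j with
      | zero => simpa using hx3
      | succ j =>
        have := hx2 j (by omega)
        simpa [Function.iterate_succ_apply] using this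
  -- number of members
  by_contra hfin
  have hinf : Infinite X := not_finite_iff_infinite.1 hfin
  let L := Fintype.card (Fin (N + 1) → Fin n)
  let x : Fin (L + 1) → X := fun i => Infinite.natEmbedding X i
  have hx : Function.Injective x := by
    intro i j h
    exact Fin.ext ((Infinite.natEmbedding X).injective h)
  let V : Fin (L + 1) → Set X := fun j => (x '' {i | i ≠ j})ᶜ
  obtain ⟨M, hM⟩ := key (range V) (by
    refine ⟨?_, ?_⟩
    · rintro _ ⟨j, rfl⟩
      exact (Set.toFinite _).isClosed.isOpen_compl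
    · rw [sUnion_range, eq_univ_iff_forall]
      intro y
      by_cases hy : y ∈ range x
      · obtain ⟨j, rfl⟩ := hy
        refine mem_iUnion.2 ⟨j, ?_⟩
        rintro ⟨i, hi, hij⟩
        exact hi (hx hij)
      · refine mem_iUnion.2 ⟨0, ?_⟩
        rintro ⟨i, -, hij⟩
        exact hy ⟨i, hij⟩)
  have hV : ∀ {i j l : Fin (L + 1)}, x i ∈ V l → x j ∈ V l → i = j := by
    intro i j l hi hj
    have h1 : i = l := by
      by_contra h
      exact hi ⟨i, h, rfl⟩
    have h2 : j = l := by
      by_contra h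
      exact hj ⟨j, h, rfl⟩
    rw [h1, h2]
  -- itinerary
  have hcover : ∀ y : X, ∃ i, y ∈ U i := by
    intro y
    have := eq_univ_iff_forall.1 hUc y
    exact mem_iUnion.1 this
  choose c hc using hcover
  let w : Fin (L + 1) → (Fin (N + 1) → Fin n) := fun i j => c (f^[(j : ℕ)] (f^[M] (x i)))
  have hw : Function.Injective w := by
    intro i j hij
    -- the common word
    let k : ℕ → Fin n := fun t => c (f^[t] (f^[M] (x i)))
    have hi : x i ∈ f^[M] ⁻¹' (P N k) := by
      intro t ht
      exact hc _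
    have hj : x j ∈ f^[M] ⁻¹' (P N k) := by
      intro t ht
      have h1 := congrFun hij ⟨t, Nat.lt_succ_of_le ht⟩
      have h2 : k t = c (f^[t] (f^[M] (x j))) := h1
      rw [h2]
      exact hc _
    obtain ⟨k', hk'⟩ := step M k
    obtain ⟨_, ⟨l, rfl⟩, hl⟩ := hM k'
    have h3 : f^[M] ⁻¹' (P N k) ⊆ V l :=
      (hk'.trans (hPmono k' (Nat.le_add_left M N))).trans hl
    exact hV (h3 hi) (h3 hj)
  have := Fintype.card_le_of_injective w hw
  simp only [Fintype.card_fin] at this
  change L + 1 ≤ L at this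
  omega

end Pool.Agent.Results.MP_b50e26_gt.FiniteSpace
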